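import Mathlib

/-!
Extreme invariant measures of a countable group of maps, and uniform laws on finite sets.
-/

set_option autoImplicit false
open MeasureTheory ProbabilityTheory Set Filter
open scoped ENNReal

namespace Pool.Agent.Lib.MP_640444_pr.Lit

variable {X ι : Type} [MeasurableSpace X] [Countable ι] {T : ι → X → X} {p : ι → Prop}

/-- an almost invariant set is trivial as soon as the strictly invariant sets are -/
theorem triv_ae {μ : Measure X} (hm : ∀ i, Measurable (T i))
    (h1 : ∀ i j, p i → p j → ∃ k, p k ∧ T i ∘ T j = T k)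
    (h2 : ∀ i j, p i → p j → ∃ k, p k ∧ T k ∘ T j = T i) (h0 : ∃ i, p i)
    (he : ∀ A, MeasurableSet A → (∀ i, p i → T i ⁻¹' A = A) → μ A = 0 ∨ μ A = 1)
    {A : Set X} (hA : MeasurableSet A) (ha : ∀ i, p i → ∀ᵐ x ∂μ, T i x ∈ A ↔ x ∈ A) :
    μ A = 0 ∨ μ A = 1 := by
  have e : ({x | ∀ i, p i → T i x ∈ A} : Set X) =ᵐ[μ] A := by
    have : ∀ᵐ x ∂μ, ∀ i, p i → (T i x ∈ A ↔ x ∈ A) := ae_all_iff.2 fun i => by
      by_cases h : p i
      · exact (ha i h).mono fun x hx _ => hx
      · exact .of_forall fun x k => absurd k h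
    obtain ⟨i, hi⟩ := h0
    exact eventuallyEq_set.2 (this.mono fun x hx =>
      ⟨fun k => (hx i hi).1 (k i hi), fun k j hj => (hx j hj).2 k⟩)
  rw [← measure_congr e]
  refine he _ ?_ fun j hj => Set.ext fun x => ⟨fun k i hi => ?_, fun k i hi => ?_⟩
  · rw [show ({x | ∀ i, p i → T i x ∈ A} : Set X) = ⋂ i, ⋂ _ : p i, T i ⁻¹' A by ext; simp]
    exact .iInter fun i => .iInter fun _ => hm i hA
  · obtain ⟨l, hl, e⟩ := h2 i j hi hj
    exact congrFun e x ▸ k l hl
  · obtain ⟨l, hl, e⟩ := h1 i j hi hj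
    have := k l hl
    rwa [← e] at this

theorem extreme_iff {μ : Measure X} (hm : ∀ i, Measurable (T i))
    (h1 : ∀ i j, p i → p j → ∃ k, p k ∧ T i ∘ T j = T k)
    (h2 : ∀ i j, p i → p j → ∃ k, p k ∧ T k ∘ T j = T i) (h0 : ∃ i, p i) :
    μ ∈ extremePoints ℝ≥0∞
        {ν : Measure X | IsProbabilityMeasure ν ∧ ∀ i, p i → MeasurePreserving (T i) ν ν} ↔
      (IsProbabilityMeasure μ ∧ ∀ i, p i → MeasurePreserving (T i) μ μ) ∧
        ∀ A, MeasurableSet A → (∀ i, p i → T i ⁻¹' A = A) → μ A = 0 ∨ μ A = 1 := by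
  rw [mem_extremePoints_iff_left]
  refine and_congr_right fun ⟨hp, hi⟩ => ⟨fun h A hA hT => ?_, fun he => ?_⟩
  · have key : ∀ s, MeasurableSet s → (∀ i, p i → T i ⁻¹' s = s) → μ s ≠ 0 → μ[|s] ∈
        {ν : Measure X | IsProbabilityMeasure ν ∧ ∀ i, p i → MeasurePreserving (T i) ν ν} :=
      fun s hs hT h0 => ⟨cond_isProbabilityMeasure h0, fun i k => .smul_measure (by
        have := (hi i k).restrict_preimage hs
        rwa [hT i k] at this) _⟩
    by_contra H
    rw [not_or] at H
    have hc : μ Aᶜ ≠ 0 := fun k => H.2 ((prob_compl_eq_zero_iff hA).1 k)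
    have := h _ (key A hA hT H.1) _ (key _ hA.compl (fun i k => by rw [preimage_compl, hT i k]) hc)
      ⟨μ A, μ Aᶜ, pos_iff_ne_zero.2 H.1, pos_iff_ne_zero.2 hc,
        by rw [measure_add_measure_compl hA, measure_univ], by
          simp [ProbabilityTheory.cond, smul_smul, ENNReal.mul_inv_cancel, H.1, hc, hA]⟩
    rw [← this] at hc
    simp [cond_apply, hA] at hc
  · rintro ν ⟨hν, hνi⟩ ν' - ⟨a, b, ha, -, -, e⟩
    have ac : ν ≪ μ := e ▸ (Measure.absolutelyContinuous_smul ha.ne').add_right _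
    have hr := Measure.measurable_rnDeriv ν μ
    obtain ⟨c, hc⟩ : ∃ c, ν.rnDeriv μ =ᵐ[μ] Function.const X c := by
      refine exists_eventuallyEq_const_of_forall_separating MeasurableSet fun U hU => ?_
      rcases triv_ae hm h1 h2 h0 he (hr hU) (fun i k =>
        ((hνi i k).rnDeriv_comp_aeEq (hi i k)).mono fun x hx => by
          rw [mem_preimage, mem_preimage, ← hx, Function.comp]) with k | k
      · exact .inr (measure_eq_zero_iff_ae_notMem.1 k)
      · exact .inl ((mem_ae_iff_prob_eq_one (hr hU)).2 k)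
    have e1 : ∀ s, ν s = c * μ s := fun s => by
      rw [← Measure.setLIntegral_rnDeriv ac, lintegral_congr_ae (ae_restrict_of_ae hc)]
      simp
    have e2 : c = 1 := by simpa using (e1 univ).symm
    ext s -
    rw [e1, e2, one_mul]

/-- a measure on a finite set with equal point masses is a multiple of the uniform law -/
theorem eq_uniform {α : Type} [Finite α] [MeasurableSpace α] [MeasurableSingletonClass α]
    {ρ : Measure α} {M : Set α} (h0 : ∀ a, a ∉ M → ρ {a} = 0)
    (h : ∀ a ∈ M, ∀ b ∈ M, ρ {a} = ρ {b}) : ρ = ρ univ • uniformOn M := by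
  have hM := M.toFinite.measurableSet
  refine Measure.ext_of_singleton fun a => ?_
  rw [Measure.smul_apply, uniformOn, cond_apply hM]
  by_cases ha : a ∈ M
  · have e : ρ = ρ {a} • Measure.count.restrict M := Measure.ext_of_singleton fun b => by
      by_cases hb : b ∈ M
      · simp [h b hb a ha, inter_eq_left.2 (singleton_subset_iff.2 hb)]
      · simp [h0 b hb, singleton_inter_eq_empty.2 hb]
    have e' : ρ univ = ρ {a} * Measure.count M := by
      conv_lhs => rw [e]
      simp
    rw [e', inter_eq_right.2 (singleton_subset_iff.2 ha), Measure.count_singleton, mul_one,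
      smul_eq_mul, mul_assoc, ENNReal.mul_inv_cancel (Measure.count_ne_zero_iff.2 ⟨a, ha⟩)
        (Measure.count_apply_lt_top.2 M.toFinite).ne, mul_one]
  · simp [h0 a ha, inter_singleton_eq_empty.2 ha]

theorem uniform_eq {α : Type} [Finite α] [MeasurableSpace α] [MeasurableSingletonClass α]
    {M : Set α} {a b : α} (ha : a ∈ M) (hb : b ∈ M) : uniformOn M {a} = uniformOn M {b} := by
  have hM := M.toFinite.measurableSet
  rw [uniformOn, cond_apply hM, cond_apply hM, inter_eq_right.2 (singleton_subset_iff.2 ha),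
    inter_eq_right.2 (singleton_subset_iff.2 hb), Measure.count_singleton, Measure.count_singleton]

end Pool.Agent.Lib.MP_640444_pr.Lit
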