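import Pool.Agent.Lib.MP_640444_pr.Lit.Defs

/-!
The partner map of a tiling.
-/

set_option autoImplicit false
open MeasureTheory Set

namespace Pool.Agent.Lib.MP_640444_pr.Lit

abbrev Z3 := Fin 3 → ℤ

theorem has_unique (τ : Omega) (x : Z3) : ∃! z, τ ∈ Has x z := by
  obtain ⟨e, ⟨h1, h2⟩, h3⟩ := τ.2 x
  obtain ⟨y, hy⟩ := Sym2.mem_iff_exists.1 h2
  refine ⟨y, ⟨e, h1, hy⟩, fun z ⟨e', k1, k2⟩ => ?_⟩
  rw [h3 e' ⟨k1, k2 ▸ Sym2.mem_mk_left _ _⟩, hy] at k2
  exact (Sym2.congr_right.1 k2).symm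

/-- the partner map -/
noncomputable def pt (τ : Omega) (x : Z3) : Z3 := (has_unique τ x).exists.choose

theorem has_pt (τ : Omega) (x : Z3) : τ ∈ Has x (pt τ x) := (has_unique τ x).exists.choose_spec

theorem pt_eq {τ : Omega} {x z : Z3} : pt τ x = z ↔ τ ∈ Has x z :=
  ⟨fun h => h ▸ has_pt τ x, fun h => (has_unique τ x).unique (has_pt τ x) h⟩

theorem meas_coord (e : Edge) : Measurable fun τ : Omega => τ.1 e :=
  (measurable_pi_apply e).comp measurable_subtype_coe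

theorem meas_true {X : Type} [MeasurableSpace X] {f : X → Bool} (h : Measurable f) :
    Measurable fun x => f x = true :=
  measurableSet_setOfPred.1 (h (measurableSet_singleton true))

theorem meas_part (S : Set Edge) : Measurable (part S) :=
  measurable_pi_lambda _ fun e => meas_coord e

theorem meas_has (x z : Z3) : MeasurableSet (Has x z) :=
  measurableSet_setOfPred.2 (.exists fun e => (meas_true (meas_coord e)).and measurable_const)

theorem meas_noCross (R : Finset Z3) : MeasurableSet (NoCross R) :=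
  measurableSet_setOfPred.2 (.forall fun e => (meas_true (meas_coord e)).imp measurable_const)

theorem meas_pt : Measurable pt :=
  measurable_pi_lambda _ fun x => measurable_to_countable' fun z => by
    convert meas_has x z using 1
    exact Set.ext fun _ => pt_eq

theorem meas_omega : MeasurableSet {τ | IsTiling τ} :=
  measurableSet_setOfPred.2 (.forall fun _ => .exists fun e =>
    ((meas_true (measurable_pi_apply e)).and measurable_const).and (.forall fun e' =>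
      ((meas_true (measurable_pi_apply e')).and measurable_const).imp measurable_const))

theorem std_omega : StandardBorelSpace Omega := meas_omega.standardBorel

/-- the sigma-algebra on tilings is the Borel one -/
theorem borel_omega : BorelSpace Omega := inferInstance

theorem meas_shift (v : Z3) : Measurable (shift v) :=
  Measurable.subtype_mk (measurable_pi_lambda _ fun _ => meas_coord _)

open Classical in
/-- the edges of a partner map -/
noncomputable def edg (σ : Z3 → Z3) (e : Edge) : Bool := decide (∃ x, e.1 = s(x, σ x))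

theorem edg_iff {σ : Z3 → Z3} {e : Edge} : edg σ e = true ↔ ∃ x, e.1 = s(x, σ x) := by
  simp [edg]

theorem meas_edg (e : Edge) : Measurable fun σ => edg σ e :=
  measurable_to_bool (by
    rw [show (fun σ => edg σ e) ⁻¹' {true} = ⋃ x, (fun σ : Z3 → Z3 => σ x) ⁻¹' {z | e.1 = s(x, z)} by
      ext; simp [edg_iff]]
    exact .iUnion fun x => measurable_pi_apply x (Set.to_countable _).measurableSet)

theorem edg_pt (τ : Omega) (e : Edge) : edg (pt τ) e = τ.1 e := by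
  rw [Bool.eq_iff_iff, edg_iff]
  refine ⟨fun ⟨x, hx⟩ => ?_, fun h => ?_⟩
  · obtain ⟨e', h1, h2⟩ := has_pt τ x
    rwa [Subtype.ext (hx.trans h2.symm : e.1 = e'.1)]
  · obtain ⟨y, hy⟩ := Sym2.mem_iff_exists.1 (Sym2.out_fst_mem e.1)
    exact ⟨_, by rw [pt_eq.2 ⟨e, h, hy⟩]; exact hy⟩

theorem pt_inj : Function.Injective pt := fun τ τ' h =>
  Subtype.ext (funext fun e => by rw [← edg_pt, h, edg_pt])

theorem emb : MeasurableEmbedding pt :=
  have := std_omega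
  meas_pt.measurableEmbedding pt_inj

theorem adj_of {e : Edge} {x z : Z3} (h : e.1 = s(x, z)) : ∑ i, |z i - x i| = 1 := by
  have := e.2
  rw [h, SimpleGraph.mem_edgeSet] at this
  exact this.symm

/-- the edge from a point to its partner -/
def mkE {x z : Z3} (h : ∑ i, |z i - x i| = 1) : Edge :=
  ⟨s(x, z), (show lattice.Adj z x from h).symm⟩

theorem edge_at {σ : Z3 → Z3} {e : Sym2 Z3} {x y : Z3} (h : e = s(y, σ y)) (hy : σ (σ y) = y)
    (hx : x ∈ e) : e = s(x, σ x) := by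
  rcases Sym2.mem_iff.1 (h ▸ hx) with rfl | rfl
  · exact h
  · rw [hy, h, Sym2.eq_swap]

theorem range_pt : range pt = {σ | ∀ x, ∑ i, |σ x i - x i| = 1 ∧ σ (σ x) = x} := by
  refine Set.ext fun σ => ⟨?_, fun h => ?_⟩
  · rintro ⟨τ, rfl⟩ x
    obtain ⟨e, h1, h2⟩ := has_pt τ x
    exact ⟨adj_of h2, pt_eq.2 ⟨e, h1, h2.trans Sym2.eq_swap⟩⟩
  · exact ⟨⟨edg σ, fun x => ⟨mkE (h x).1, ⟨edg_iff.2 ⟨x, rfl⟩, Sym2.mem_mk_left _ _⟩,
      fun e ⟨k1, k2⟩ => (edg_iff.1 k1).elim fun y hy => Subtype.ext (edge_at hy (h y).2 k2)⟩⟩,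
      funext fun x => pt_eq.2 ⟨mkE (h x).1, edg_iff.2 ⟨x, rfl⟩, rfl⟩⟩

theorem pt_shift (v : Z3) (τ : Omega) : pt (shift v τ) = fun x => pt τ (x - v) + v := by
  funext x
  obtain ⟨e, h1, h2⟩ := has_pt τ (x - v)
  refine pt_eq.2 ⟨(move v).mapEdgeSet e,
    (congrArg τ.1 ((move v).mapEdgeSet.left_inv e)).trans h1, ?_⟩
  change Sym2.map (· + v) e.1 = _
  rw [h2, Sym2.map_mk, sub_add_cancel]

theorem shift_shift (v w : Z3) : shift v ∘ shift w = shift (v + w) :=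
  funext fun τ => pt_inj (by
    simp only [Function.comp, pt_shift]
    funext x
    rw [sub_sub, add_assoc, add_comm w])

variable {R : Finset Z3}

theorem finite_inside (R : Finset Z3) : Finite (inside R) :=
  .of_injective (fun e : inside R => (⟨e.1.1, Finset.mem_sym2_iff.2 e.2⟩ : R.sym2))
    fun _ _ h => Subtype.ext (Subtype.ext (Subtype.mk.inj h))

theorem noCross_of {τ : Omega} (h : part (inside R) τ ∈ Matchings R) : τ ∈ NoCross R := by
  intro e he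
  by_contra k
  simp only [not_or, outside, mem_ofPred_eq, not_forall, not_not] at k
  obtain ⟨k1, x, hx, k2⟩ := k
  obtain ⟨e', ⟨h1, h2⟩, -⟩ := h x k2
  exact k1 ((τ.2 x).unique ⟨h1, h2⟩ ⟨he, hx⟩ ▸ e'.2)

theorem matching_of {τ : Omega} (h : τ ∈ NoCross R) : part (inside R) τ ∈ Matchings R := by
  intro x hx
  obtain ⟨e, ⟨h1, h2⟩, h3⟩ := τ.2 x
  exact ⟨⟨e, (h e h1).resolve_right fun k => k x h2 hx⟩, ⟨h1, h2⟩,
    fun e' k => Subtype.ext (h3 _ k)⟩

theorem out_eq {τ τ' : Omega} (h : τ ∈ NoCross R)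
    (e : part (outside R) τ = part (outside R) τ') {y : Z3} (hy : y ∉ R) : pt τ' y = pt τ y := by
  obtain ⟨d, h1, h2⟩ := has_pt τ y
  have := (h d h1).resolve_left fun k => hy (k y (h2 ▸ Sym2.mem_mk_left _ _))
  exact pt_eq.2 ⟨d, (congrFun e ⟨d, this⟩).symm.trans h1, h2⟩

/-- `σ` is the partner map of `m` on `R` -/
def Rep (R : Finset Z3) (σ : Z3 → Z3) (m : inside R → Bool) : Prop :=
  ∀ x ∈ R, ∀ z, σ x = z ↔ ∃ e : inside R, m e = true ∧ e.1.1 = s(x, z)

theorem Rep.iff {σ : Z3 → Z3} {m : inside R → Bool} (h : Rep R σ m) (τ : Omega) :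
    (∀ x ∈ R, pt τ x = σ x) ↔ part (inside R) τ = m := by
  refine ⟨fun k => funext fun e => ?_, fun k x hx => ?_⟩
  · obtain ⟨y, hy⟩ := Sym2.mem_iff_exists.1 (Sym2.out_fst_mem e.1.1)
    have hx := e.2 _ (Sym2.out_fst_mem e.1.1)
    rw [Bool.eq_iff_iff]
    refine ⟨fun t => ?_, fun t => ?_⟩
    · obtain ⟨e', t1, t2⟩ := (h _ hx y).1 ((k _ hx).symm.trans (pt_eq.2 ⟨e, t, hy⟩))
      rwa [Subtype.ext (Subtype.ext (hy.trans t2.symm) : e.1 = e'.1)]
    · obtain ⟨e', t1, t2⟩ := pt_eq.1 ((k _ hx).trans ((h _ hx y).2 ⟨e, t, hy⟩))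
      rwa [Subtype.ext (t2.trans hy.symm : e'.1 = e.1.1)] at t1
  · obtain ⟨e, t1, t2⟩ := (h x hx _).1 rfl
    exact pt_eq.2 ⟨e, (congrFun k e).trans t1, t2⟩

theorem Rep.spec {σ : Z3 → Z3} {m : inside R → Bool} (h : Rep R σ m) {x : Z3} (hx : x ∈ R) :
    ∑ i, |σ x i - x i| = 1 ∧ σ x ∈ R ∧ σ (σ x) = x := by
  obtain ⟨e, t1, t2⟩ := (h x hx _).1 rfl
  have := e.2 (σ x) (t2 ▸ Sym2.mem_mk_right _ _)
  exact ⟨adj_of t2, this, (h _ this _).2 ⟨e, t1, t2.trans Sym2.eq_swap⟩⟩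

theorem exists_rep {m : inside R → Bool} (h : m ∈ Matchings R) : ∃ σ, Rep R σ m := by
  have : ∀ x, ∃ y, x ∈ R → ∀ z, y = z ↔ ∃ e : inside R, m e = true ∧ e.1.1 = s(x, z) := fun x => by
    by_cases hx : x ∈ R
    · obtain ⟨e, ⟨h1, h2⟩, h3⟩ := h x hx
      obtain ⟨y, hy⟩ := Sym2.mem_iff_exists.1 h2
      refine ⟨y, fun _ z => ⟨fun k => ⟨e, h1, k ▸ hy⟩, fun ⟨e', k1, k2⟩ => ?_⟩⟩
      rw [h3 e' ⟨k1, k2 ▸ Sym2.mem_mk_left _ _⟩, hy] at k2
      exact Sym2.congr_right.1 k2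
    · exact ⟨x, fun k => absurd k hx⟩
  choose σ hσ using this
  exact ⟨σ, hσ⟩

theorem exists_matching {σ : Z3 → Z3}
    (h : ∀ x ∈ R, ∑ i, |σ x i - x i| = 1 ∧ σ x ∈ R ∧ σ (σ x) = x) :
    ∃ m ∈ Matchings R, Rep R σ m := by
  have i1 : ∀ x (hx : x ∈ R), mkE (h x hx).1 ∈ inside R := fun x hx y hy => by
    rcases Sym2.mem_iff.1 hy with rfl | rfl
    exacts [hx, (h x hx).2.1]
  have i2 : ∀ (e : inside R) x, edg σ e = true → x ∈ e.1.1 → e.1.1 = s(x, σ x) := fun e x k1 k2 =>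
    (edg_iff.1 k1).elim fun y hy =>
      edge_at hy (h y (e.2 y (hy ▸ Sym2.mem_mk_left _ _))).2.2 k2
  refine ⟨fun e => edg σ e, fun x hx => ⟨⟨_, i1 x hx⟩, ⟨edg_iff.2 ⟨x, rfl⟩, Sym2.mem_mk_left _ _⟩,
    fun e k => Subtype.ext (Subtype.ext (i2 e x k.1 k.2))⟩, fun x hx z =>
    ⟨fun k => ⟨⟨_, i1 x hx⟩, edg_iff.2 ⟨x, rfl⟩, k ▸ rfl⟩, fun ⟨e, k1, k2⟩ => ?_⟩⟩
  exact Sym2.congr_right.1 ((i2 e x k1 (k2 ▸ Sym2.mem_mk_left _ _)).symm.trans k2)

end Pool.Agent.Lib.MP_640444_pr.Lit
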