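import Pool.Agent.Lib.MP_640444_pr.Stmt
import Pool.Agent.Lib.MP_640444_pr.Lit.Pt
import Pool.Agent.Lib.MP_640444_pr.Lit.Erg

/-!
The ergodic Gibbs measures on edge sets correspond to those on partner maps.
-/

set_option autoImplicit false
open MeasureTheory ProbabilityTheory Set
open scoped ENNReal

namespace Pool.Agent.Lib.MP_640444_pr.Lit

/-- two matchings have the same mass jointly with any outside event -/
def EqMass (μ : Measure Omega) (R : Finset Z3) : Prop :=
  ∀ B, MeasurableSet B → ∀ m ∈ Matchings R, ∀ m' ∈ Matchings R,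
    μ (part (inside R) ⁻¹' {m} ∩ part (outside R) ⁻¹' B) =
      μ (part (inside R) ⁻¹' {m'} ∩ part (outside R) ⁻¹' B)

theorem gibbs_iff (μ : Measure Omega) [IsFiniteMeasure μ] : IsGibbs μ ↔ ∀ R, EqMass μ R := by
  refine forall_congr' fun R => ?_
  have := finite_inside R
  have mi := meas_part (inside R)
  have mo := meas_part (outside R)
  have sub : ∀ m ∈ Matchings R, ∀ B, part (inside R) ⁻¹' {m} ∩ part (outside R) ⁻¹' B ⊆ NoCross R :=
    fun m hm B τ h => noCross_of ((show _ = m from h.1) ▸ hm)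
  refine (condDistrib_ae_eq_iff_measure_eq_compProd (μ := cond μ (NoCross R)) (part (outside R))
    mi.aemeasurable (Kernel.const _ (uniformOn (Matchings R)))).trans ?_
  rw [Measure.compProd_const]
  refine ⟨fun h B hB m hm m' hm' => ?_, fun h => (Measure.prod_eq fun s t hs ht => ?_).symm⟩
  · have e : ∀ m ∈ Matchings R, (μ (NoCross R))⁻¹ * μ (part (inside R) ⁻¹' {m} ∩
        part (outside R) ⁻¹' B) = (cond μ (NoCross R)).map (part (outside R)) B *
          uniformOn (Matchings R) {m} := fun m hm => by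
      rw [← Measure.prod_prod, ← h, Measure.map_apply (mo.prodMk mi)
        (hB.prod (measurableSet_singleton m)), cond_apply (meas_noCross R),
        ← inter_eq_right.2 (sub m hm B), inter_comm (part (inside R) ⁻¹' {m})]
      rfl
    by_cases h0 : μ (NoCross R) = 0
    · rw [measure_mono_null (sub m hm B) h0, measure_mono_null (sub m' hm' B) h0]
    · refine (ENNReal.mul_right_inj (ENNReal.inv_ne_zero.2 (measure_ne_top μ (NoCross R)))
        (ENNReal.inv_ne_top.2 h0)).1 ?_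
      rw [e m hm, e m' hm', uniform_eq hm hm']
  · have e : ∀ t, (((cond μ (NoCross R)).restrict (part (outside R) ⁻¹' s)).map (part (inside R))) t
        = (μ (NoCross R))⁻¹ * μ (NoCross R ∩ (part (inside R) ⁻¹' t ∩ part (outside R) ⁻¹' s)) :=
      fun t => by
        rw [Measure.map_apply mi t.toFinite.measurableSet, Measure.restrict_apply' (mo hs),
          cond_apply (meas_noCross R)]
    have u := eq_uniform (ρ := ((cond μ (NoCross R)).restrict (part (outside R) ⁻¹' s)).map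
      (part (inside R))) (M := Matchings R) (fun a ha => by
        rw [e, eq_empty_of_forall_notMem (s := NoCross R ∩ (part (inside R) ⁻¹' {a} ∩
          part (outside R) ⁻¹' s)) fun τ k => ha ((show _ = a from k.2.1) ▸ matching_of k.1),
          measure_empty, mul_zero])
      fun a ha b hb => by
        rw [e, e, inter_eq_right.2 (sub a ha s), inter_eq_right.2 (sub b hb s), h s hs a ha b hb]
    have u' := congrArg (fun ν : Measure _ => ν t) u
    simp only [Measure.smul_apply, smul_eq_mul, e, preimage_univ, univ_inter] at u'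
    rw [Measure.map_apply (mo.prodMk mi) (hs.prod ht), Measure.map_apply mo hs,
      cond_apply (meas_noCross R), cond_apply (meas_noCross R), ← u',
      inter_comm (part (inside R) ⁻¹' t)]
    rfl

theorem mass_le {μ : Measure Omega} (h : ∀ R, EqMass μ R) {Λ : Finset Z3} {τ₁ τ₂ : Z3 → Z3}
    (h1 : ∀ x ∈ Λ, (∑ i, |τ₁ x i - x i|) = 1 ∧ (τ₁ x ∈ Λ → τ₁ (τ₁ x) = x))
    (h2 : ∀ x ∈ Λ, (∑ i, |τ₂ x i - x i|) = 1 ∧ (τ₂ x ∈ Λ → τ₂ (τ₂ x) = x))
    (h3 : ∀ x ∈ Λ, (τ₁ x ∉ Λ ∨ τ₂ x ∉ Λ) → τ₁ x = τ₂ x) {A : Set (Z3 → Z3)} (hA : MeasurableSet A)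
    (hd : ∀ σ σ' : Z3 → Z3, (∀ y, y ∉ Λ → σ y = σ' y) → σ ∈ A → σ' ∈ A) :
    μ (pt ⁻¹' ({σ | ∀ x ∈ Λ, σ x = τ₁ x} ∩ A)) ≤ μ (pt ⁻¹' ({σ | ∀ x ∈ Λ, σ x = τ₂ x} ∩ A)) := by
  set R := Λ.filter fun x => τ₁ x ∈ Λ
  have hR : ∀ x, x ∈ R ↔ x ∈ Λ ∧ τ₁ x ∈ Λ := fun x => Finset.mem_filter
  have hR' : ∀ x, x ∈ R ↔ x ∈ Λ ∧ τ₂ x ∈ Λ := fun x => (hR x).trans (and_congr_right fun hx =>
    ⟨fun k => by_contra fun k' => k' (h3 x hx (.inr k') ▸ k),
      fun k => by_contra fun k' => k' ((h3 x hx (.inl k')).symm ▸ k)⟩)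
  obtain ⟨m₁, a1, b1⟩ := exists_matching (R := R) (σ := τ₁) fun x hx => by
    obtain ⟨k, k'⟩ := (hR x).1 hx
    exact ⟨(h1 x k).1, (hR _).2 ⟨k', ((h1 x k).2 k').symm ▸ k⟩, (h1 x k).2 k'⟩
  obtain ⟨m₂, a2, b2⟩ := exists_matching (R := R) (σ := τ₂) fun x hx => by
    obtain ⟨k, k'⟩ := (hR' x).1 hx
    exact ⟨(h2 x k).1, (hR' _).2 ⟨k', ((h2 x k).2 k').symm ▸ k⟩, (h2 x k).2 k'⟩
  set S := pt ⁻¹' ({σ | ∀ x ∈ Λ, σ x = τ₁ x} ∩ A)
  have s1 : ∀ τ ∈ S, part (inside R) τ = m₁ := fun τ k =>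
    (b1.iff τ).1 fun x hx => k.1 x ((hR x).1 hx).1
  have s2 : ∀ τ ∈ S, τ ∈ NoCross R := fun τ k => noCross_of ((s1 τ k).symm ▸ a1)
  have := std_omega
  have hB : MeasurableSet (part (outside R) '' S) :=
    (meas_pt ((measurableSet_setOfPred.2 (.forall fun x => measurable_const.imp
      (measurableSet_setOfPred.1 (measurable_pi_apply x (measurableSet_singleton _))))).inter
      hA)).image_of_measurable_injOn (meas_part _) fun τ k τ' k' e => pt_inj (funext fun x => by
        by_cases hx : x ∈ R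
        · exact (k.1 x ((hR x).1 hx).1).trans (k'.1 x ((hR x).1 hx).1).symm
        · exact (out_eq (s2 τ k) e hx).symm)
  refine le_trans (measure_mono fun τ k => ?_) ((h R _ hB m₁ a1 m₂ a2).trans_le (measure_mono ?_))
  · exact ⟨s1 τ k, τ, k, rfl⟩
  rintro τ ⟨k, τ', k', e⟩
  refine ⟨fun x hx => ?_, hd _ _ (fun y hy =>
    (out_eq (s2 τ' k') e fun t => hy ((hR y).1 t).1).symm) k'.2⟩
  by_cases t : x ∈ R
  · exact (b2.iff τ).2 k x t
  · exact (out_eq (s2 τ' k') e t).trans ((k'.1 x hx).trans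
      (h3 x hx (.inl fun u => t ((hR x).2 ⟨hx, u⟩))))

theorem map_inj {μ ν : Measure Omega} (h : μ.map pt = ν.map pt) : μ = ν := by
  rw [← emb.comap_map μ, h, emb.comap_map]

theorem map_shift (μ : Measure Omega) (v : Z3) :
    (μ.map pt).map (fun (σ : Z3 → Z3) x => σ (x - v) + v) = (μ.map (shift v)).map pt := by
  rw [Measure.map_map (by fun_prop) meas_pt, Measure.map_map meas_pt (meas_shift v)]
  exact congrArg (μ.map ·) (funext fun τ => (pt_shift v τ).symm)

theorem even_add {v w : Z3} (hv : Even (∑ i, v i)) (hw : Even (∑ i, w i)) :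
    Even (∑ i, (v + w) i) := by
  simpa only [Pi.add_apply, Finset.sum_add_distrib] using hv.add hw

theorem even_neg {v : Z3} (hv : Even (∑ i, v i)) : Even (∑ i, (-v) i) := by
  simpa only [Pi.neg_apply, Finset.sum_neg_distrib] using hv.neg

theorem bridge (s : Fin 3 → ℝ) (μ : Measure Omega) :
    (μ ∈ extremePoints ℝ≥0∞ Invariant ∧ IsGibbs μ ∧ current μ = s) ↔ IsEGM s (μ.map pt) := by
  have cur : ∀ z, (μ.map pt {σ | σ 0 = z}).toReal = μ.real (Has 0 z) := fun z => by
    rw [emb.map_apply]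
    exact congrArg (fun A => (μ A).toReal) (Set.ext fun _ => pt_eq)
  rw [Invariant, extreme_iff (p := fun v : Z3 => Even (∑ i, v i)) meas_shift
    (fun v w hv hw => ⟨v + w, even_add hv hw, shift_shift v w⟩)
    (fun v w hv hw => ⟨v + -w, even_add hv (even_neg hw), by
      rw [shift_shift, neg_add_cancel_right]⟩) ⟨0, by simp⟩]
  refine ⟨fun ⟨⟨⟨hp, hi⟩, he⟩, hg, hc⟩ => ?_, fun h => ?_⟩
  · rw [gibbs_iff] at hg
    refine ⟨Measure.isProbabilityMeasure_map meas_pt.aemeasurable,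
      emb.ae_map_iff.2 (.of_forall fun τ => range_pt.le ⟨τ, rfl⟩),
      fun Λ τ₁ τ₂ h1 h2 h3 A hA hd => ?_, fun v hv => by rw [map_shift, (hi v hv).map_eq],
      fun A hA hT => ?_, fun i => by rw [cur, cur, ← hc, current]⟩
    · rw [emb.map_apply, emb.map_apply]
      exact (mass_le hg h1 h2 h3 hA hd).antisymm
        (mass_le hg h2 h1 (fun x hx k => (h3 x hx k.symm).symm) hA hd)
    · rw [emb.map_apply]
      refine he _ (meas_pt hA) fun v hv => Set.ext fun τ => ?_
      rw [mem_preimage, mem_preimage, pt_shift]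
      exact Set.ext_iff.1 (hT v hv) (pt τ)
  · have hp : IsProbabilityMeasure μ := ⟨by
      simpa only [emb.map_apply, preimage_univ] using h.prob.1⟩
    refine ⟨⟨⟨hp, fun v hv => ⟨meas_shift v, map_inj ((map_shift μ v).symm.trans (h.inv v hv))⟩⟩,
      fun A hA hT => ?_⟩, (gibbs_iff μ).2 fun R B hB m hm m' hm' => ?_,
      funext fun i => by rw [h.cur, cur, cur, current]⟩
    · have := h.erg _ (emb.measurableSet_image.2 hA) fun v hv => Set.ext fun σ =>
        ⟨fun ⟨τ, k, e⟩ => ⟨shift (-v) τ, (Set.ext_iff.1 (hT _ (even_neg hv)) τ).2 k, by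
          rw [pt_shift, e]
          funext x
          simp⟩,
        fun ⟨τ, k, e⟩ => ⟨shift v τ, (Set.ext_iff.1 (hT _ hv) τ).2 k, by rw [pt_shift, e]⟩⟩
      rwa [emb.map_apply, pt_inj.preimage_image] at this
    · obtain ⟨σ, a⟩ := exists_rep hm
      obtain ⟨σ', a'⟩ := exists_rep hm'
      have e : ∀ {σ m}, Rep R σ m → pt ⁻¹' ({τ | ∀ x ∈ R, τ x = σ x} ∩
          (fun τ (e : outside R) => edg τ e) ⁻¹' B) =
          part (inside R) ⁻¹' {m} ∩ part (outside R) ⁻¹' B := fun a => Set.ext fun τ =>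
        and_congr (a.iff τ) (by simp only [mem_preimage, edg_pt]; rfl)
      have := h.gibbs R σ σ' (fun x hx => ⟨(a.spec hx).1, fun _ => (a.spec hx).2.2⟩)
        (fun x hx => ⟨(a'.spec hx).1, fun _ => (a'.spec hx).2.2⟩)
        (fun x hx k => (k.elim (· (a.spec hx).2.1) (· (a'.spec hx).2.1)).elim)
        ((fun τ (e : outside R) => edg τ e) ⁻¹' B)
        (measurable_pi_lambda _ (fun e : outside R => meas_edg e) hB) fun τ τ' k t => by
          rwa [mem_preimage, show (fun e : outside R => edg τ' e) = fun e : outside R => edg τ e from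
            funext fun e => by
              rw [Bool.eq_iff_iff, edg_iff, edg_iff]
              exact exists_congr fun x =>
                ⟨fun u => u.trans (by rw [k x (e.2 x (u ▸ Sym2.mem_mk_left _ _))]),
                  fun u => u.trans (by rw [k x (e.2 x (u ▸ Sym2.mem_mk_left _ _))])⟩]
      rwa [emb.map_apply, emb.map_apply, e a, e a'] at this

/-- The statement on edge sets and the statement on partner maps are equivalent. -/
theorem unique_iff (s : Fin 3 → ℝ) :
    (∃! μ : Measure Omega, μ ∈ extremePoints ℝ≥0∞ Invariant ∧ IsGibbs μ ∧ current μ = s) ↔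
      ∃! ν, IsEGM s ν := by
  have back : ∀ ν, IsEGM s ν → (ν.comap pt).map pt = ν := fun ν h => by
    rw [emb.map_comap, range_pt]
    exact Measure.restrict_eq_self_of_ae_mem h.tiling
  have back' : ∀ ν, IsEGM s ν → IsEGM s ((ν.comap pt).map pt) := fun ν h => by rwa [back ν h]
  simp only [bridge]
  exact ⟨fun ⟨μ, h, u⟩ => ⟨_, h, fun ν k =>
      (back ν k).symm.trans (congrArg (Measure.map pt) (u _ (back' ν k)))⟩,
    fun ⟨ν, h, u⟩ => ⟨ν.comap pt, back' ν h, fun μ k => map_inj ((u _ k).trans (back ν h).symm)⟩⟩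

end Pool.Agent.Lib.MP_640444_pr.Lit
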