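import Mathlib

/-!
The dimer model on Z^3 with the definitions of the problem file: tilings are points of {0,1}^E,
ergodic measures are extreme points, and the Gibbs property is stated for the conditional law.
-/

set_option autoImplicit false
open MeasureTheory ProbabilityTheory

namespace Pool.Agent.Lib.MP_640444_pr.Lit

/-- The nearest neighbour graph on Z^3. -/
def lattice : SimpleGraph (Fin 3 → ℤ) where
  Adj x y := ∑ i, |x i - y i| = 1
  symm := ⟨fun x y h => by simpa only [abs_sub_comm] using h⟩
  loopless := ⟨fun x h => by simp at h⟩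

/-- The edges of the lattice. -/
abbrev Edge : Type := {e : Sym2 (Fin 3 → ℤ) // e ∈ lattice.edgeSet}

/-- Every vertex lies in exactly one chosen edge. -/
def IsTiling (τ : Edge → Bool) : Prop := ∀ x, ∃! e : Edge, τ e = true ∧ x ∈ e.1

/-- Dimer tilings, as points of {0,1}^E. -/
abbrev Omega : Type := {τ : Edge → Bool // IsTiling τ}

/-- Translation by `v` as an automorphism of the lattice. -/
def move (v : Fin 3 → ℤ) : lattice ≃g lattice :=
  ⟨Equiv.addRight v, by simp [lattice]⟩

/-- The translate of a tiling by `v`: it contains `e` iff the tiling contains `e - v`. -/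
def shift (v : Fin 3 → ℤ) (τ : Omega) : Omega :=
  ⟨fun e => τ.1 ((move v).symm.mapEdgeSet e), fun x => by
    obtain ⟨e, ⟨h1, h2⟩, h3⟩ := τ.2 ((move v).symm x)
    refine ⟨(move v).mapEdgeSet e, ⟨(congrArg τ.1
      ((move v).mapEdgeSet.left_inv e)).trans h1, Sym2.mem_map.2 ⟨_, h2, (move v).apply_symm_apply x⟩⟩,
      fun e' h => ?_⟩
    rw [← h3 _ ⟨h.1, Sym2.mem_map.2 ⟨x, h.2, rfl⟩⟩]
    exact ((move v).mapEdgeSet.right_inv e').symm⟩

/-- Probability measures on tilings that are invariant under even translations. -/
def Invariant : Set (Measure Omega) :=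
  {μ | IsProbabilityMeasure μ ∧ ∀ v, Even (∑ i, v i) → MeasurePreserving (shift v) μ μ}

/-- The edges with both ends in `R`. -/
def inside (R : Finset (Fin 3 → ℤ)) : Set Edge := {e | ∀ x ∈ e.1, x ∈ R}

/-- The edges with both ends outside `R`. -/
def outside (R : Finset (Fin 3 → ℤ)) : Set Edge := {e | ∀ x ∈ e.1, x ∉ R}

/-- The tilings with no edge that has exactly one end in `R`. -/
def NoCross (R : Finset (Fin 3 → ℤ)) : Set Omega :=
  {τ | ∀ e : Edge, τ.1 e = true → e ∈ inside R ∨ e ∈ outside R}

/-- The perfect matchings of `R`. -/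
def Matchings (R : Finset (Fin 3 → ℤ)) : Set (inside R → Bool) :=
  {m | ∀ x ∈ R, ∃! e : inside R, m e = true ∧ x ∈ e.1.1}

/-- The part of a tiling on a set of edges. -/
def part (S : Set Edge) (τ : Omega) : S → Bool := fun e => τ.1 e

/-- Given `NoCross R` and the edges outside `R`, the conditional law of the edges inside `R` is
uniform on the perfect matchings of `R`. -/
def IsGibbs (μ : Measure Omega) : Prop :=
  ∀ R : Finset (Fin 3 → ℤ),
    ∀ᵐ ω ∂(cond μ (NoCross R)).map (part (outside R)),
      condDistrib (part (inside R)) (part (outside R)) (cond μ (NoCross R)) ω =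
        uniformOn (Matchings R)

/-- The event that the edge from `x` to `y` belongs to the tiling. -/
def Has (x y : Fin 3 → ℤ) : Set Omega := {τ | ∃ e : Edge, τ.1 e = true ∧ e.1 = s(x, y)}

/-- The mean current. -/
noncomputable def current (μ : Measure Omega) (i : Fin 3) : ℝ :=
  μ.real (Has 0 (Pi.single i 1)) - μ.real (Has 0 (-Pi.single i 1))

end Pool.Agent.Lib.MP_640444_pr.Lit
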